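import Mathlib

set_option autoImplicit false

/-! # Counting the values of linear forms on `SL_2` of a finite field (helper20)

The matrices `U(x₀) L(x₁) U(x₂) L(x₃) U(x₄)`. -/

namespace Pool.Agent.Q20.SL

open Finset

open scoped Classical

/-- the number of the elements with the property `P` -/
noncomputable def cnt {α : Type} [Fintype α] (P : α → Prop) : ℕ := (univ.filter P).card

section gen

variable {α β : Type} [Fintype α] [Fintype β]

lemma cnt_mono {P Q : α → Prop} (h : ∀ a, P a → Q a) : cnt P ≤ cnt Q :=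
  card_le_card fun a ha => by
    rw [mem_filter] at ha ⊢
    exact ⟨ha.1, h a ha.2⟩

lemma cnt_congr {P Q : α → Prop} (h : ∀ a, P a ↔ Q a) : cnt P = cnt Q :=
  le_antisymm (cnt_mono fun a => (h a).1) (cnt_mono fun a => (h a).2)

lemma cnt_not (P : α → Prop) : cnt P + cnt (fun a => ¬ P a) = Fintype.card α := by
  unfold cnt
  rw [card_filter_add_card_filter_not, card_univ]

lemma cnt_or (P Q : α → Prop) : cnt (fun a => P a ∨ Q a) ≤ cnt P + cnt Q := by
  unfold cnt
  refine (card_le_card ?_).trans (card_union_le (univ.filter P) (univ.filter Q))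
  intro a ha
  simp only [Finset.mem_filter] at ha
  have h1 := ha.2
  rw [mem_union, mem_filter, mem_filter]
  rcases h1 with h | h
  · exact Or.inl ⟨mem_univ _, h⟩
  · exact Or.inr ⟨mem_univ _, h⟩

lemma cnt_false {P : α → Prop} (h : ∀ a, ¬ P a) : cnt P = 0 := by
  unfold cnt
  rw [card_eq_zero, filter_eq_empty_iff]
  exact fun a _ => h a

lemma cnt_le_card (P : α → Prop) : cnt P ≤ Fintype.card α := by
  unfold cnt
  exact (card_filter_le _ _).trans (by rw [card_univ])

lemma cnt_inj {P : α → Prop} {Q : β → Prop} (f : α → β) (h : ∀ a, P a → Q (f a))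
    (hi : ∀ a a', P a → P a' → f a = f a' → a = a') : cnt P ≤ cnt Q := by
  refine card_le_card_of_injOn f (fun a ha => ?_) (fun a ha a' ha' he => ?_)
  · simp only [coe_filter, mem_univ, true_and, Set.mem_ofPred_eq] at ha ⊢
    exact h a ha
  · simp only [coe_filter, mem_univ, true_and, Set.mem_ofPred_eq] at ha ha'
    exact hi a a' ha ha' he

lemma cnt_one {P : α → Prop} (h : ∀ a a', P a → P a' → a = a') : cnt P ≤ 1 := by
  refine card_le_one.2 fun a ha a' ha' => ?_
  rw [mem_filter] at ha ha'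
  exact h a a' ha.2 ha'.2

lemma cnt_prod (P : α → β → Prop) : cnt (fun z : α × β => P z.1 z.2) = ∑ a, cnt (P a) := by
  unfold cnt
  simp only [card_filter]
  rw [Fintype.sum_prod_type]

/-- fibres -/
lemma cnt_fib {P : α → Prop} (f : α → β) (n m : ℕ) (Q : β → Prop) (h : ∀ a, P a → Q (f a))
    (hn : ∀ b, Q b → cnt (fun a => P a ∧ f a = b) ≤ n) (hm : cnt Q ≤ m) : cnt P ≤ n * m := by
  have h1 : (univ.filter P).card ≤ n * ((univ.filter P).image f).card := by
    refine card_le_mul_card_image _ _ fun b hb => ?_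
    rw [mem_image] at hb
    obtain ⟨a, ha, rfl⟩ := hb
    rw [filter_filter]
    rw [mem_filter] at ha
    have h2 := hn _ (h a ha.2)
    unfold cnt at h2
    convert h2
  refine h1.trans (Nat.mul_le_mul_left n (le_trans (card_le_card fun b hb => ?_) hm))
  rw [mem_image] at hb
  obtain ⟨a, ha, rfl⟩ := hb
  rw [mem_filter] at ha ⊢
  exact ⟨mem_univ _, h a ha.2⟩

end gen

variable {F : Type} [Field F] [Fintype F]

lemma q_pos : 1 ≤ Fintype.card F := Fintype.card_pos

/-- one linear variable -/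
lemma cnt_lin {α : Type} [Fintype α] (K lam : α → F) (r : F) :
    cnt (fun z : α × F => K z.1 + z.2 * lam z.1 = r) =
      cnt (fun a => lam a ≠ 0) + Fintype.card F * cnt (fun a => lam a = 0 ∧ K a = r) := by
  rw [cnt_prod (fun a t => K a + t * lam a = r)]
  have h1 : ∀ a, cnt (fun t : F => K a + t * lam a = r) =
      (if lam a ≠ 0 then 1 else 0) + Fintype.card F * (if lam a = 0 ∧ K a = r then 1 else 0) := by
    intro a
    by_cases h : lam a = 0
    · rw [if_neg (by simpa using h), zero_add]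
      by_cases h2 : K a = r
      · rw [if_pos ⟨h, h2⟩, mul_one]
        unfold cnt
        rw [filter_true_of_mem, card_univ]
        intro t _
        rw [h, mul_zero, add_zero, h2]
      · rw [if_neg (fun h3 => h2 h3.2), mul_zero]
        exact cnt_false fun t ht => h2 (by rw [h, mul_zero, add_zero] at ht; exact ht)
    · rw [if_pos h, if_neg (fun h3 => h h3.1), mul_zero, add_zero]
      unfold cnt
      rw [card_eq_one]
      refine ⟨(r - K a) / lam a, ?_⟩
      ext t
      rw [mem_filter, mem_singleton, eq_div_iff h]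
      constructor
      · rintro ⟨-, h2⟩
        rw [← h2]; ring
      · intro h2
        refine ⟨mem_univ _, ?_⟩
        rw [h2]; ring
  rw [sum_congr rfl fun a _ => h1 a, sum_add_distrib, ← mul_sum]
  unfold cnt
  simp only [card_filter]
  congr!

/-- a quadratic polynomial has at most two zeros -/
lemma cnt_quad (a b c : F) (hc : c ≠ 0) : cnt (fun x : F => a * x ^ 2 + b * x + c = 0) ≤ 2 := by
  obtain ⟨P, hP⟩ : ∃ P : Polynomial F, P = Polynomial.C a * Polynomial.X ^ 2 + Polynomial.C b * Polynomial.X +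
    Polynomial.C c := ⟨_, rfl⟩
  have h0 : P ≠ 0 := by
    intro h
    have h1 := congrArg (Polynomial.eval 0) h
    rw [hP] at h1
    simp at h1
    exact hc h1
  have h2 : P.natDegree ≤ 2 := by
    rw [hP]
    exact Polynomial.natDegree_quadratic_le
  have h3 : (univ.filter (fun x : F => a * x ^ 2 + b * x + c = 0)) ⊆ P.roots.toFinset := by
    intro x hx
    rw [mem_filter] at hx
    rw [Multiset.mem_toFinset, Polynomial.mem_roots h0, Polynomial.IsRoot, hP]
    simp
    exact hx.2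
  calc cnt (fun x : F => a * x ^ 2 + b * x + c = 0) ≤ P.roots.toFinset.card := card_le_card h3
    _ ≤ Multiset.card P.roots := Multiset.toFinset_card_le _
    _ ≤ P.natDegree := Polynomial.card_roots' P
    _ ≤ 2 := h2

/-- a line -/
lemma cnt_line (a b r : F) (h : a ≠ 0 ∨ b ≠ 0) :
    cnt (fun v : F × F => a * v.1 + b * v.2 = r) ≤ Fintype.card F := by
  by_cases hb : b = 0
  · have ha : a ≠ 0 := by
      rcases h with h | h
      · exact h
      · exact absurd hb h
    refine le_trans (cnt_inj (Q := fun _ : F => True) (fun v : F × F => v.2) (fun _ _ => trivial) ?_)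
      (cnt_le_card _)
    rintro ⟨x, y⟩ ⟨x', y'⟩ h1 h2 h3
    simp only [hb, zero_mul, add_zero] at h1 h2 h3 ⊢
    rw [← h2] at h1
    rw [h3, mul_left_cancel₀ ha h1]
  · refine le_trans (cnt_inj (Q := fun _ : F => True) (fun v : F × F => v.1) (fun _ _ => trivial) ?_)
      (cnt_le_card _)
    rintro ⟨x, y⟩ ⟨x', y'⟩ h1 h2 h3
    simp only at h1 h2 h3 ⊢
    rw [← h2, h3] at h1
    have := mul_left_cancel₀ hb (add_left_cancel h1)
    rw [h3, this]

/-! ### the first column -/

/-- the entries of `U(x₀) L(x₁) U(x₂) L(x₃)`; `z = (((x₂, x₃), x₁), x₀)` -/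
def a3 {R : Type} [CommRing R] (z : R × R) : R := 1 + z.2 * z.1

def c3 {R : Type} [CommRing R] (z : (R × R) × R) : R := z.1.2 + z.2 * a3 z.1

def col {R : Type} [CommRing R] (z : ((R × R) × R) × R) : R × R := (a3 z.1.1 + z.2 * c3 z.1, c3 z.1)

def col' {R : Type} [CommRing R] (z : ((R × R) × R) × R) : R × R :=
  (z.1.1.1 + z.2 * (1 + z.1.2 * z.1.1.1), 1 + z.1.2 * z.1.1.1)

lemma det_col {R : Type} [CommRing R] (z : ((R × R) × R) × R) :
    (col z).1 * (col' z).2 - (col z).2 * (col' z).1 = 1 := by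
  simp only [col, col', c3, a3]
  ring

local instance : Inhabited F := ⟨0⟩

lemma cnt_a3 (r : F) : cnt (fun z : F × F => a3 z = r) ≤ 2 * Fintype.card F := by
  have h := cnt_lin (fun _ : F => (1 : F)) (fun x : F => x) r
  have h1 : cnt (fun z : F × F => a3 z = r) = cnt (fun z : F × F => 1 + z.2 * z.1 = r) := rfl
  rw [h1, h]
  have h2 : cnt (fun x : F => x ≠ 0) ≤ Fintype.card F := cnt_le_card _
  have h3 : cnt (fun x : F => x = 0 ∧ (1 : F) = r) ≤ 1 := cnt_one fun a a' h h' => by rw [h.1, h'.1]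
  nlinarith [q_pos (F := F)]

lemma cnt_a30 : cnt (fun z : F × F => a3 z = 0) ≤ Fintype.card F := by
  have h := cnt_lin (fun _ : F => (1 : F)) (fun x : F => x) 0
  have h1 : cnt (fun z : F × F => a3 z = 0) = cnt (fun z : F × F => 1 + z.2 * z.1 = 0) := rfl
  rw [h1, h]
  have h2 : cnt (fun x : F => x ≠ 0) ≤ Fintype.card F := cnt_le_card _
  have h3 : cnt (fun x : F => x = 0 ∧ (1 : F) = 0) = 0 := cnt_false fun a h => one_ne_zero h.2
  rw [h3, mul_zero, add_zero]
  exact h2

lemma cnt_c3 (r : F) : cnt (fun z : (F × F) × F => c3 z = r) ≤ Fintype.card F ^ 2 + Fintype.card F ∧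
    Fintype.card F ^ 2 ≤ cnt (fun z : (F × F) × F => c3 z = r) + Fintype.card F := by
  have h := cnt_lin (fun z : F × F => z.2) (fun z : F × F => a3 z) r
  have h1 : cnt (fun z : (F × F) × F => c3 z = r) =
    cnt (fun z : (F × F) × F => z.1.2 + z.2 * a3 z.1 = r) := rfl
  rw [h1, h]
  have h2 := cnt_not (fun z : F × F => a3 z = 0)
  have h3 := cnt_a30 (F := F)
  have h4 : cnt (fun z : F × F => a3 z = 0 ∧ z.2 = r) ≤ 1 := by
    refine cnt_one ?_
    rintro ⟨x, y⟩ ⟨x', y'⟩ ⟨k1, k2⟩ ⟨k1', k2'⟩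
    simp only [a3] at k1 k2 k1' k2'
    subst k2
    subst k2'
    have hr : y' ≠ 0 := by
      intro h
      rw [h] at k1
      simp at k1
    have : y' * x = y' * x' := by linear_combination k1 - k1'
    rw [mul_left_cancel₀ hr this]
  rw [Fintype.card_prod] at h2
  have h5 : cnt (fun z : F × F => a3 z ≠ 0) = cnt (fun z : F × F => ¬ a3 z = 0) := rfl
  rw [h5]
  have h6 := q_pos (F := F)
  have h7 : Fintype.card F * cnt (fun z : F × F => a3 z = 0 ∧ z.2 = r) ≤ Fintype.card F := by nlinarith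
  constructor
  · nlinarith
  · nlinarith

lemma cnt_c3a3 (a : F) : cnt (fun z : (F × F) × F => c3 z = 0 ∧ a3 z.1 = a) ≤ 2 * Fintype.card F := by
  by_cases ha : a = 0
  · rw [cnt_false]
    · exact Nat.zero_le _
    rintro ⟨⟨x, y⟩, t⟩ ⟨h1, h2⟩
    simp only [a3, c3, ha] at h1 h2
    rw [h2, mul_zero, add_zero] at h1
    rw [h1] at h2
    simp at h2
  · refine (cnt_inj (Q := fun z : F × F => a3 z = a) (fun z : (F × F) × F => z.1) (fun z hz => hz.2) ?_).trans
      (cnt_a3 a)
    rintro ⟨⟨x, y⟩, t⟩ ⟨⟨x', y'⟩, t'⟩ ⟨h1, h2⟩ ⟨h1', h2'⟩ h3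
    simp only [Prod.mk.injEq] at h3
    obtain ⟨rfl, rfl⟩ := h3
    simp only [c3] at h1 h1' h2
    rw [h2] at h1 h1'
    have : t * a = t' * a := by linear_combination h1 - h1'
    rw [mul_right_cancel₀ ha this]

lemma cnt_point (v : F × F) : cnt (fun z : ((F × F) × F) × F => col z = v) ≤ 2 * Fintype.card F ^ 2 := by
  obtain ⟨a, c⟩ := v
  have h6 := q_pos (F := F)
  by_cases hc : c = 0
  · have h1 : cnt (fun z : ((F × F) × F) × F => col z = (a, c)) ≤ Fintype.card F * (2 * Fintype.card F) := by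
      refine cnt_fib (β := (F × F) × F) (fun z => z.1) _ _ (fun z => c3 z = 0 ∧ a3 z.1 = a) ?_ ?_ (cnt_c3a3 a)
      · rintro ⟨z, t⟩ h
        simp only [col, Prod.mk.injEq] at h
        obtain ⟨h1, h2⟩ := h
        rw [hc] at h2
        rw [h2, mul_zero, add_zero] at h1
        exact ⟨h2, h1⟩
      · intro b _
        refine le_trans (cnt_inj (Q := fun _ : F => True) (fun z => z.2) (fun _ _ => trivial) ?_)
          (cnt_le_card _)
        rintro ⟨z, t⟩ ⟨z', t'⟩ ⟨-, h1⟩ ⟨-, h2⟩ h3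
        simp only at h1 h2 h3
        rw [h1, h2, h3]
    nlinarith
  · refine (cnt_inj (Q := fun z : (F × F) × F => c3 z = c) (fun z => z.1) ?_ ?_).trans
      ((cnt_c3 c).1.trans (by nlinarith))
    · rintro ⟨z, t⟩ h
      simp only [col, Prod.mk.injEq] at h
      exact h.2
    · rintro ⟨z, t⟩ ⟨z', t'⟩ h1 h2 h3
      simp only at h3
      subst h3
      simp only [col, Prod.mk.injEq] at h1 h2
      obtain ⟨h1, h1'⟩ := h1
      obtain ⟨h2, -⟩ := h2
      rw [h1'] at h1 h2
      have : t * c = t' * c := by linear_combination h1 - h2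
      rw [mul_right_cancel₀ hc this]

/-- the values of a linear form on the first column -/
lemma cnt_colline (a b r : F) (hab : a ≠ 0 ∨ b ≠ 0) :
    cnt (fun z : ((F × F) × F) × F => a * (col z).1 + b * (col z).2 = r) ≤
      Fintype.card F ^ 3 + 2 * Fintype.card F ^ 2 ∧
    Fintype.card F ^ 3 ≤ cnt (fun z : ((F × F) × F) × F => a * (col z).1 + b * (col z).2 = r) +
      2 * Fintype.card F ^ 2 := by
  have h6 := q_pos (F := F)
  by_cases ha : a = 0
  · have hb : b ≠ 0 := by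
      rcases hab with h | h
      · exact absurd ha h
      · exact h
    have h1 : cnt (fun z : ((F × F) × F) × F => a * (col z).1 + b * (col z).2 = r) =
        Fintype.card F * cnt (fun z : (F × F) × F => c3 z = r / b) := by
      have h := cnt_lin (fun z : (F × F) × F => c3 z) (fun _ => (0 : F)) (r / b)
      rw [cnt_false (P := fun _ : (F × F) × F => (0 : F) ≠ 0) (by simp), zero_add] at h
      rw [cnt_congr (P := fun z : (F × F) × F => (0 : F) = 0 ∧ c3 z = r / b)
        (Q := fun z => c3 z = r / b) (by simp)] at h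
      rw [← h]
      refine cnt_congr fun z => ?_
      rw [ha, zero_mul, zero_add, mul_zero, add_zero, eq_div_iff hb, mul_comm]
      rfl
    rw [h1]
    obtain ⟨h2, h3⟩ := cnt_c3 (r / b)
    constructor
    · nlinarith
    · nlinarith
  · have h := cnt_lin (fun z : (F × F) × F => a * a3 z.1 + b * c3 z) (fun z => a * c3 z) r
    have h1 : cnt (fun z : ((F × F) × F) × F => a * (col z).1 + b * (col z).2 = r) =
        cnt (fun z : ((F × F) × F) × F => a * a3 z.1.1 + b * c3 z.1 + z.2 * (a * c3 z.1) = r) := by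
      refine cnt_congr fun z => ?_
      simp only [col]
      constructor
      · intro h; rw [← h]; ring
      · intro h; rw [← h]; ring
    rw [h1, h]
    obtain ⟨h2, h3⟩ := cnt_c3 (F := F) 0
    have h4 := cnt_not (fun z : (F × F) × F => c3 z = 0)
    have h5 : cnt (fun z : (F × F) × F => a * c3 z ≠ 0) = cnt (fun z : (F × F) × F => ¬ c3 z = 0) := by
      refine cnt_congr fun z => ?_
      simp [ha]
    have h7 : cnt (fun z : (F × F) × F => a * c3 z = 0 ∧ a * a3 z.1 + b * c3 z = r) ≤ 2 * Fintype.card F := by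
      refine (cnt_mono ?_).trans (cnt_c3a3 (r / a))
      rintro z ⟨h1, h2⟩
      have h3 : c3 z = 0 := by simpa [ha] using h1
      refine ⟨h3, ?_⟩
      rw [h3, mul_zero, add_zero] at h2
      rw [eq_div_iff ha, ← h2]
      ring
    rw [h5]
    rw [Fintype.card_prod, Fintype.card_prod] at h4
    constructor
    · nlinarith
    · nlinarith

/-! ### the second column -/

/-- the points `v` of the line `ψ = 0` that are first columns -/
lemma cnt_V (f1 f2 g1 g2 r : F) (hg : g1 ≠ 0 ∨ g2 ≠ 0) :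
    cnt (fun v : F × F => g1 * v.1 + g2 * v.2 = 0 ∧ ∃ w : F × F, v.1 * w.2 - v.2 * w.1 = 1 ∧
      f1 * v.1 + f2 * v.2 + (g1 * w.1 + g2 * w.2) = r) ≤ 2 := by
  by_cases h2 : g2 = 0
  · have h1 : g1 ≠ 0 := by
      rcases hg with h | h
      · exact h
      · exact absurd h2 h
    refine (cnt_inj (Q := fun x : F => f2 * x ^ 2 + (-r) * x + (-g1) = 0) (fun v : F × F => v.2) ?_ ?_).trans
      (cnt_quad _ _ _ (neg_ne_zero.2 h1))
    · rintro ⟨x, y⟩ ⟨h3, ⟨w1, w2⟩, h4, h5⟩
      simp only [h2, zero_mul, add_zero] at h3 h4 h5 ⊢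
      have hx : x = 0 := by
        rcases mul_eq_zero.1 h3 with h | h
        · exact absurd h h1
        · exact h
      subst hx
      linear_combination y * h5 + g1 * h4
    · rintro ⟨x, y⟩ ⟨x', y'⟩ ⟨h3, -⟩ ⟨h4, -⟩ h5
      simp only [h2, zero_mul, add_zero] at h3 h4 h5
      have hx : x = 0 := by
        rcases mul_eq_zero.1 h3 with h | h
        · exact absurd h h1
        · exact h
      have hx' : x' = 0 := by
        rcases mul_eq_zero.1 h4 with h | h
        · exact absurd h h1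
        · exact h
      rw [hx, hx', h5]
  · refine (cnt_inj (Q := fun x : F => (f1 * g2 - f2 * g1) * x ^ 2 + (-(r * g2)) * x + g2 * g2 = 0)
      (fun v : F × F => v.1) ?_ ?_).trans (cnt_quad _ _ _ (mul_ne_zero h2 h2))
    · rintro ⟨x, y⟩ ⟨h3, ⟨w1, w2⟩, h4, h5⟩
      simp only at h3 h4 h5 ⊢
      have hy : y = -(g1 * x) / g2 := by
        rw [eq_div_iff h2]
        linear_combination h3
      subst hy
      have h4' : x * (g1 * w1 + g2 * w2) = g2 := by
        have : g2 * (x * w2 - -(g1 * x) / g2 * w1) = g2 * 1 := by rw [h4]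
        rw [mul_one] at this
        calc x * (g1 * w1 + g2 * w2) = g2 * (x * w2 - -(g1 * x) / g2 * w1) := by
              field_simp
              ring
          _ = g2 := this
      have h5' : (f1 * g2 - f2 * g1) * x + g2 * (g1 * w1 + g2 * w2) = r * g2 := by
        rw [← h5]
        field_simp
        ring
      linear_combination x * h5' - g2 * h4'
    · rintro ⟨x, y⟩ ⟨x', y'⟩ ⟨h3, -⟩ ⟨h4, -⟩ h5
      simp only at h3 h4 h5
      subst h5
      have : g2 * y = g2 * y' := by linear_combination h3 - h4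
      rw [mul_left_cancel₀ h2 this]

lemma cnt_det (v : F × F) : cnt (fun w : F × F => v.1 * w.2 - v.2 * w.1 = 1) ≤ Fintype.card F := by
  by_cases h : v.1 ≠ 0 ∨ v.2 ≠ 0
  · refine (cnt_mono ?_).trans (cnt_line (-v.2) v.1 1 ?_)
    · intro w hw
      rw [← hw]; ring
    · rcases h with h | h
      · exact Or.inr h
      · exact Or.inl (neg_ne_zero.2 h)
  · push Not at h
    rw [cnt_false]
    · exact Nat.zero_le _
    intro w hw
    rw [h.1, h.2] at hw
    simp at hw

/-- the case of a line of first columns -/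
lemma cnt_S' (e1 e2 r' f1 f2 g1 g2 r : F) (he : e1 ≠ 0 ∨ e2 ≠ 0) (hg : g1 ≠ 0 ∨ g2 ≠ 0) :
    cnt (fun m : (F × F) × (F × F) => e1 * m.1.1 + e2 * m.1.2 = r' ∧ m.1.1 * m.2.2 - m.1.2 * m.2.1 = 1 ∧
      f1 * m.1.1 + f2 * m.1.2 + (g1 * m.2.1 + g2 * m.2.2) = r) ≤ 3 * Fintype.card F := by
  have h1 := cnt_mono (P := fun m : (F × F) × (F × F) => e1 * m.1.1 + e2 * m.1.2 = r' ∧
      m.1.1 * m.2.2 - m.1.2 * m.2.1 = 1 ∧ f1 * m.1.1 + f2 * m.1.2 + (g1 * m.2.1 + g2 * m.2.2) = r)
    (Q := fun m => (e1 * m.1.1 + e2 * m.1.2 = r' ∧ g1 * m.1.1 + g2 * m.1.2 ≠ 0 ∧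
      m.1.1 * m.2.2 - m.1.2 * m.2.1 = 1 ∧ f1 * m.1.1 + f2 * m.1.2 + (g1 * m.2.1 + g2 * m.2.2) = r) ∨
      (g1 * m.1.1 + g2 * m.1.2 = 0 ∧
      m.1.1 * m.2.2 - m.1.2 * m.2.1 = 1 ∧ f1 * m.1.1 + f2 * m.1.2 + (g1 * m.2.1 + g2 * m.2.2) = r)) (by
        rintro m ⟨k1, k2, k3⟩
        by_cases k : g1 * m.1.1 + g2 * m.1.2 = 0
        · exact Or.inr ⟨k, k2, k3⟩
        · exact Or.inl ⟨k1, k, k2, k3⟩)
  have h2 : cnt (fun m : (F × F) × (F × F) => e1 * m.1.1 + e2 * m.1.2 = r' ∧ g1 * m.1.1 + g2 * m.1.2 ≠ 0 ∧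
      m.1.1 * m.2.2 - m.1.2 * m.2.1 = 1 ∧ f1 * m.1.1 + f2 * m.1.2 + (g1 * m.2.1 + g2 * m.2.2) = r) ≤
      Fintype.card F := by
    refine (cnt_inj (Q := fun v : F × F => e1 * v.1 + e2 * v.2 = r') (fun m => m.1) (fun m hm => hm.1) ?_).trans
      (cnt_line e1 e2 r' he)
    rintro ⟨⟨x, y⟩, ⟨s, t⟩⟩ ⟨⟨x', y'⟩, ⟨s', t'⟩⟩ ⟨k1, k2, k3, k4⟩ ⟨l1, l2, l3, l4⟩ h
    simp only [Prod.mk.injEq] at h
    obtain ⟨rfl, rfl⟩ := h
    simp only at k1 k2 k3 k4 l1 l2 l3 l4
    have m1 : (g1 * x + g2 * y) * s = (g1 * x + g2 * y) * s' := by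
      linear_combination x * (k4 - l4) - g2 * (k3 - l3)
    have m2 : (g1 * x + g2 * y) * t = (g1 * x + g2 * y) * t' := by
      linear_combination y * (k4 - l4) + g1 * (k3 - l3)
    rw [mul_left_cancel₀ k2 m1, mul_left_cancel₀ k2 m2]
  have h3 : cnt (fun m : (F × F) × (F × F) => g1 * m.1.1 + g2 * m.1.2 = 0 ∧
      m.1.1 * m.2.2 - m.1.2 * m.2.1 = 1 ∧ f1 * m.1.1 + f2 * m.1.2 + (g1 * m.2.1 + g2 * m.2.2) = r) ≤
      Fintype.card F * 2 := by
    refine cnt_fib (fun m : (F × F) × (F × F) => m.1) _ _ _ ?_ ?_ (cnt_V f1 f2 g1 g2 r hg)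
    · rintro ⟨v, w⟩ ⟨k1, k2, k3⟩
      exact ⟨k1, w, k2, k3⟩
    · intro v _
      refine (cnt_inj (Q := fun w : F × F => v.1 * w.2 - v.2 * w.1 = 1) (fun m => m.2) ?_ ?_).trans (cnt_det v)
      · rintro ⟨v', w⟩ ⟨⟨k1, k2, k3⟩, k4⟩
        simp only at k4 k2
        rw [k4] at k2
        exact k2
      · rintro ⟨v', w⟩ ⟨v'', w'⟩ ⟨-, k4⟩ ⟨-, k5⟩ k6
        simp only at k4 k5 k6
        rw [k4, k5, k6]
  have h4 := cnt_or (fun m : (F × F) × (F × F) => e1 * m.1.1 + e2 * m.1.2 = r' ∧ g1 * m.1.1 + g2 * m.1.2 ≠ 0 ∧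
      m.1.1 * m.2.2 - m.1.2 * m.2.1 = 1 ∧ f1 * m.1.1 + f2 * m.1.2 + (g1 * m.2.1 + g2 * m.2.2) = r)
    (fun m => g1 * m.1.1 + g2 * m.1.2 = 0 ∧
      m.1.1 * m.2.2 - m.1.2 * m.2.1 = 1 ∧ f1 * m.1.1 + f2 * m.1.2 + (g1 * m.2.1 + g2 * m.2.2) = r)
  omega

/-- the independent case -/
lemma cnt_SD (f1 f2 g1 g2 r f1' f2' g1' g2' s : F) (hD : g1 * g2' - g2 * g1' ≠ 0) :
    cnt (fun m : (F × F) × (F × F) => m.1.1 * m.2.2 - m.1.2 * m.2.1 = 1 ∧
      f1 * m.1.1 + f2 * m.1.2 + (g1 * m.2.1 + g2 * m.2.2) = r ∧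
      f1' * m.1.1 + f2' * m.1.2 + (g1' * m.2.1 + g2' * m.2.2) = s) ≤ 4 * Fintype.card F := by
  obtain ⟨P, hP⟩ : ∃ P : (F × F) × (F × F) → Prop, P = fun m => m.1.1 * m.2.2 - m.1.2 * m.2.1 = 1 ∧
      f1 * m.1.1 + f2 * m.1.2 + (g1 * m.2.1 + g2 * m.2.2) = r ∧
      f1' * m.1.1 + f2' * m.1.2 + (g1' * m.2.1 + g2' * m.2.2) = s := ⟨_, rfl⟩
  have hw : ∀ m m', P m → P m' → m.1 = m'.1 → m = m' := by
    rintro ⟨⟨x, y⟩, ⟨w1, w2⟩⟩ ⟨⟨x', y'⟩, ⟨w1', w2'⟩⟩ h h' e
    rw [hP] at h h'
    simp only [Prod.mk.injEq] at e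
    obtain ⟨rfl, rfl⟩ := e
    obtain ⟨-, h2, h3⟩ := h
    obtain ⟨-, h2', h3'⟩ := h'
    simp only at h2 h3 h2' h3'
    have m1 : (g1 * g2' - g2 * g1') * w1 = (g1 * g2' - g2 * g1') * w1' := by
      linear_combination g2' * (h2 - h2') - g2 * (h3 - h3')
    have m2 : (g1 * g2' - g2 * g1') * w2 = (g1 * g2' - g2 * g1') * w2' := by
      linear_combination g1 * (h3 - h3') - g1' * (h2 - h2')
    rw [mul_left_cancel₀ hD m1, mul_left_cancel₀ hD m2]
  have hD' : -(g1 * g2' - g2 * g1') ≠ 0 := neg_ne_zero.2 hD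
  have h1 : cnt (fun m : (F × F) × (F × F) => P m ∧ m.1.1 ≠ 0) ≤ 2 * Fintype.card F := by
    refine cnt_fib (β := F) (fun m : (F × F) × (F × F) => m.1.2 / m.1.1) _ _ (fun _ => True)
      (fun _ _ => trivial) ?_ (cnt_le_card _)
    intro y _
    refine (cnt_inj (Q := fun x : F => (g1 * (-(f1' + f2' * y)) - g1' * (-(f1 + f2 * y)) -
      y * (g2' * (-(f1 + f2 * y)) - g2 * (-(f1' + f2' * y)))) * x ^ 2 +
      (g1 * s - g1' * r - y * (g2' * r - g2 * s)) * x + (-(g1 * g2' - g2 * g1')) = 0)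
      (fun m => m.1.1) ?_ ?_).trans (cnt_quad _ _ _ hD')
    · rintro ⟨⟨x, z⟩, ⟨w1, w2⟩⟩ ⟨⟨h, hx⟩, hy⟩
      rw [hP] at h
      obtain ⟨h1, h2, h3⟩ := h
      simp only at h1 h2 h3 hx hy ⊢
      rw [div_eq_iff hx] at hy
      subst hy
      linear_combination (g1 * g2' - g2 * g1') * h1 - x * (g1 * h3 - g1' * h2) + y * x * (g2' * h2 - g2 * h3)
    · rintro m m' ⟨⟨h, hx⟩, hy⟩ ⟨⟨h', hx'⟩, hy'⟩ e
      refine hw m m' h h' (Prod.ext e ?_)
      rw [div_eq_iff hx] at hy
      rw [div_eq_iff hx'] at hy'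
      have e' : m.1.1 = m'.1.1 := e
      rw [hy, hy', e']
  have h2 : cnt (fun m : (F × F) × (F × F) => P m ∧ m.1.1 = 0) ≤ 2 := by
    refine (cnt_inj (Q := fun x : F => (g2' * f2 - g2 * f2') * x ^ 2 + (g2 * s - g2' * r) * x +
      (-(g1 * g2' - g2 * g1')) = 0) (fun m => m.1.2) ?_ ?_).trans (cnt_quad _ _ _ hD')
    · rintro ⟨⟨x, z⟩, ⟨w1, w2⟩⟩ ⟨h, hx⟩
      rw [hP] at h
      obtain ⟨h1, h2, h3⟩ := h
      simp only at h1 h2 h3 hx ⊢
      subst hx
      linear_combination (g1 * g2' - g2 * g1') * h1 + z * (g2' * h2 - g2 * h3)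
    · rintro m m' ⟨h, hx⟩ ⟨h', hx'⟩ e
      exact hw m m' h h' (Prod.ext (by rw [hx, hx']) e)
  have h3 : cnt P ≤ cnt (fun m => (P m ∧ m.1.1 ≠ 0) ∨ (P m ∧ m.1.1 = 0)) := cnt_mono fun m hm => by
    by_cases h : m.1.1 = 0
    · exact Or.inr ⟨hm, h⟩
    · exact Or.inl ⟨hm, h⟩
  have h4 := cnt_or (fun m : (F × F) × (F × F) => P m ∧ m.1.1 ≠ 0) (fun m => P m ∧ m.1.1 = 0)
  have h5 := q_pos (F := F)
  have h6 : cnt P ≤ 4 * Fintype.card F := by omega
  rw [hP] at h6
  exact h6

/-- two independent linear forms on `SL_2` -/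
lemma cnt_S (f1 f2 g1 g2 r f1' f2' g1' g2' s : F)
    (hind : ∀ a b : F, a * f1 = b * f1' → a * f2 = b * f2' → a * g1 = b * g1' → a * g2 = b * g2' →
      a = 0 ∧ b = 0) :
    cnt (fun m : (F × F) × (F × F) => m.1.1 * m.2.2 - m.1.2 * m.2.1 = 1 ∧
      f1 * m.1.1 + f2 * m.1.2 + (g1 * m.2.1 + g2 * m.2.2) = r ∧
      f1' * m.1.1 + f2' * m.1.2 + (g1' * m.2.1 + g2' * m.2.2) = s) ≤ 4 * Fintype.card F := by
  by_cases hD : g1 * g2' - g2 * g1' = 0
  · by_cases hg : g1 ≠ 0 ∨ g2 ≠ 0
    · -- `g' = k g`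
      obtain ⟨k, hk1, hk2⟩ : ∃ k : F, g1' = k * g1 ∧ g2' = k * g2 := by
        rcases hg with h | h
        · refine ⟨g1' / g1, ?_, ?_⟩
          · field_simp
          · field_simp
            linear_combination hD
        · refine ⟨g2' / g2, ?_, ?_⟩
          · field_simp
            linear_combination -hD
          · field_simp
      refine (cnt_mono ?_).trans ((cnt_S' (f1' - k * f1) (f2' - k * f2) (s - k * r) f1 f2 g1 g2 r ?_ hg).trans
        (by omega))
      · rintro m ⟨h1, h2, h3⟩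
        refine ⟨?_, h1, h2⟩
        rw [hk1, hk2] at h3
        linear_combination h3 - k * h2
      · by_contra hcon
        push Not at hcon
        have := (hind k 1 (by linear_combination -hcon.1) (by linear_combination -hcon.2)
          (by rw [hk1]; ring) (by rw [hk2]; ring)).2
        exact one_ne_zero this
    · push Not at hg
      obtain ⟨hg1, hg2⟩ := hg
      subst hg1
      subst hg2
      by_cases hg' : g1' ≠ 0 ∨ g2' ≠ 0
      · refine (cnt_mono ?_).trans ((cnt_S' f1 f2 r f1' f2' g1' g2' s ?_ hg').trans (by omega))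
        · rintro m ⟨h1, h2, h3⟩
          refine ⟨?_, h1, h3⟩
          linear_combination h2
        · by_contra hcon
          push Not at hcon
          have := (hind 1 0 (by rw [hcon.1]; ring) (by rw [hcon.2]; ring) (by ring) (by ring)).1
          exact one_ne_zero this
      · push Not at hg'
        obtain ⟨hg1, hg2⟩ := hg'
        subst hg1
        subst hg2
        -- the first column is determined
        have hE : f1 * f2' - f2 * f1' ≠ 0 := by
          intro hE
          have h1 := hind f1' f1 (by ring) (by linear_combination -hE) (by ring) (by ring)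
          have h2 := hind f2' f2 (by linear_combination hE) (by ring) (by ring) (by ring)
          have := (hind 1 0 (by rw [h1.2]; ring) (by rw [h2.2]; ring) (by ring) (by ring)).1
          exact one_ne_zero this
        have hv : ∀ m : (F × F) × (F × F), (m.1.1 * m.2.2 - m.1.2 * m.2.1 = 1 ∧
            f1 * m.1.1 + f2 * m.1.2 + (0 * m.2.1 + 0 * m.2.2) = r ∧
            f1' * m.1.1 + f2' * m.1.2 + (0 * m.2.1 + 0 * m.2.2) = s) →
            m.1 = ((f2' * r - f2 * s) / (f1 * f2' - f2 * f1'), (f1 * s - f1' * r) / (f1 * f2' - f2 * f1')) := by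
          rintro ⟨⟨x, y⟩, w⟩ ⟨-, h1, h2⟩
          simp only at h1 h2 ⊢
          rw [Prod.mk.injEq, eq_div_iff hE, eq_div_iff hE]
          constructor
          · linear_combination f2' * h1 - f2 * h2
          · linear_combination f1 * h2 - f1' * h1
        refine (cnt_inj (Q := fun w : F × F => (f2' * r - f2 * s) / (f1 * f2' - f2 * f1') * w.2 -
          (f1 * s - f1' * r) / (f1 * f2' - f2 * f1') * w.1 = 1) (fun m => m.2) ?_ ?_).trans
          ((cnt_det ((f2' * r - f2 * s) / (f1 * f2' - f2 * f1'),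
            (f1 * s - f1' * r) / (f1 * f2' - f2 * f1'))).trans (by omega))
        · intro m hm
          have h1 := hv m hm
          have h2 := hm.1
          rw [h1] at h2
          exact h2
        · intro m m' hm hm' h
          exact Prod.ext ((hv m hm).trans (hv m' hm').symm) h
  · exact cnt_SD _ _ _ _ _ _ _ _ _ _ hD

/-! ### the whole matrix -/

/-- the second column of `U(x₀) L(x₁) U(x₂) L(x₃) U(x₄)` -/
def colw {R : Type} [CommRing R] (x : (((R × R) × R) × R) × R) : R × R :=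
  ((col' x.1).1 + x.2 * (col x.1).1, (col' x.1).2 + x.2 * (col x.1).2)

lemma det_colw {R : Type} [CommRing R] (x : (((R × R) × R) × R) × R) :
    (col x.1).1 * (colw x).2 - (col x.1).2 * (colw x).1 = 1 := by
  have := det_col x.1
  simp only [colw]
  linear_combination this

/-- two forms -/
theorem cnt_two (f1 f2 g1 g2 r f1' f2' g1' g2' s : F)
    (hind : ∀ a b : F, a * f1 = b * f1' → a * f2 = b * f2' → a * g1 = b * g1' → a * g2 = b * g2' →
      a = 0 ∧ b = 0) :
    cnt (fun x : (((F × F) × F) × F) × F =>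
      f1 * (col x.1).1 + f2 * (col x.1).2 + (g1 * (colw x).1 + g2 * (colw x).2) = r ∧
      f1' * (col x.1).1 + f2' * (col x.1).2 + (g1' * (colw x).1 + g2' * (colw x).2) = s) ≤
      8 * Fintype.card F ^ 3 := by
  have h1 := cnt_fib (P := fun x : (((F × F) × F) × F) × F =>
      f1 * (col x.1).1 + f2 * (col x.1).2 + (g1 * (colw x).1 + g2 * (colw x).2) = r ∧
      f1' * (col x.1).1 + f2' * (col x.1).2 + (g1' * (colw x).1 + g2' * (colw x).2) = s)
    (fun x => (col x.1, colw x)) (2 * Fintype.card F ^ 2) (4 * Fintype.card F) _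
    (fun x hx => ⟨det_colw x, hx.1, hx.2⟩) (by
      rintro ⟨v, w⟩ hvw
      refine (cnt_inj (Q := fun z : ((F × F) × F) × F => col z = v) (fun x => x.1) ?_ ?_).trans (cnt_point v)
      · rintro x ⟨-, hx⟩
        exact (Prod.mk.inj hx).1
      · rintro ⟨z, t⟩ ⟨z', t'⟩ ⟨-, hx⟩ ⟨-, hx'⟩ e
        simp only at e
        subst e
        obtain ⟨k1, k2⟩ := Prod.mk.inj hx
        obtain ⟨l1, l2⟩ := Prod.mk.inj hx'
        have k3 := congrArg Prod.fst (k2.trans l2.symm)
        have k4 := congrArg Prod.snd (k2.trans l2.symm)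
        simp only [colw] at k3 k4
        have k5 : t * (col z).1 = t' * (col z).1 := add_left_cancel k3
        have k6 : t * (col z).2 = t' * (col z).2 := add_left_cancel k4
        have k7 := det_col z
        have : t = t' := by linear_combination (col' z).2 * k5 - (col' z).1 * k6 - (t - t') * k7
        rw [this]) (cnt_S f1 f2 g1 g2 r f1' f2' g1' g2' s hind)
  refine h1.trans (le_of_eq ?_)
  ring

/-- one form -/
theorem cnt_one_form (f1 f2 g1 g2 r : F) (h : f1 ≠ 0 ∨ f2 ≠ 0 ∨ g1 ≠ 0 ∨ g2 ≠ 0) :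
    cnt (fun x : (((F × F) × F) × F) × F =>
      f1 * (col x.1).1 + f2 * (col x.1).2 + (g1 * (colw x).1 + g2 * (colw x).2) = r) ≤
      Fintype.card F ^ 4 + 8 * Fintype.card F ^ 3 ∧
    Fintype.card F ^ 4 ≤ cnt (fun x : (((F × F) × F) × F) × F =>
      f1 * (col x.1).1 + f2 * (col x.1).2 + (g1 * (colw x).1 + g2 * (colw x).2) = r) +
      8 * Fintype.card F ^ 3 := by
  have hq := q_pos (F := F)
  have e1 : cnt (fun x : (((F × F) × F) × F) × F =>
      f1 * (col x.1).1 + f2 * (col x.1).2 + (g1 * (colw x).1 + g2 * (colw x).2) = r) =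
      cnt (fun x : (((F × F) × F) × F) × F =>
      f1 * (col x.1).1 + f2 * (col x.1).2 + (g1 * (col' x.1).1 + g2 * (col' x.1).2) +
        x.2 * (g1 * (col x.1).1 + g2 * (col x.1).2) = r) := by
    refine cnt_congr fun x => ?_
    simp only [colw]
    constructor
    · intro h; rw [← h]; ring
    · intro h; rw [← h]; ring
  rw [e1, cnt_lin (fun z => f1 * (col z).1 + f2 * (col z).2 + (g1 * (col' z).1 + g2 * (col' z).2))
    (fun z => g1 * (col z).1 + g2 * (col z).2) r]
  by_cases hg : g1 ≠ 0 ∨ g2 ≠ 0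
  · have h1 := cnt_not (fun z : ((F × F) × F) × F => g1 * (col z).1 + g2 * (col z).2 = 0)
    rw [Fintype.card_prod, Fintype.card_prod, Fintype.card_prod] at h1
    obtain ⟨h2, -⟩ := cnt_colline g1 g2 0 hg
    have h3 : cnt (fun z : ((F × F) × F) × F => g1 * (col z).1 + g2 * (col z).2 = 0 ∧
        f1 * (col z).1 + f2 * (col z).2 + (g1 * (col' z).1 + g2 * (col' z).2) = r) ≤
        2 * Fintype.card F ^ 2 * 2 := by
      refine cnt_fib (fun z => col z) _ _ _ ?_ ?_ (cnt_V f1 f2 g1 g2 r hg)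
      · rintro z ⟨k1, k2⟩
        exact ⟨k1, col' z, det_col z, k2⟩
      · intro v _
        exact (cnt_mono fun z hz => hz.2).trans (cnt_point v)
    have h4 : Fintype.card F * cnt (fun z : ((F × F) × F) × F => g1 * (col z).1 + g2 * (col z).2 = 0 ∧
        f1 * (col z).1 + f2 * (col z).2 + (g1 * (col' z).1 + g2 * (col' z).2) = r) ≤
        4 * Fintype.card F ^ 3 := by
      calc _ ≤ Fintype.card F * (2 * Fintype.card F ^ 2 * 2) := Nat.mul_le_mul_left _ h3
        _ = _ := by ring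
    have h5 : Fintype.card F ^ 2 ≤ Fintype.card F ^ 3 := Nat.pow_le_pow_right hq (by norm_num)
    have h6 : Fintype.card F * Fintype.card F * Fintype.card F * Fintype.card F = Fintype.card F ^ 4 := by ring
    rw [h6] at h1
    have h7 : cnt (fun z : ((F × F) × F) × F => g1 * (col z).1 + g2 * (col z).2 ≠ 0) =
      cnt (fun z : ((F × F) × F) × F => ¬ g1 * (col z).1 + g2 * (col z).2 = 0) := rfl
    rw [h7]
    constructor
    · omega
    · omega
  · push Not at hg
    obtain ⟨hg1, hg2⟩ := hg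
    subst hg1
    subst hg2
    have hf : f1 ≠ 0 ∨ f2 ≠ 0 := by
      rcases h with h | h | h | h
      · exact Or.inl h
      · exact Or.inr h
      · exact absurd rfl h
      · exact absurd rfl h
    rw [cnt_false (P := fun z : ((F × F) × F) × F => 0 * (col z).1 + 0 * (col z).2 ≠ 0) (by simp), zero_add]
    have e2 : cnt (fun z : ((F × F) × F) × F => 0 * (col z).1 + 0 * (col z).2 = 0 ∧
        f1 * (col z).1 + f2 * (col z).2 + (0 * (col' z).1 + 0 * (col' z).2) = r) =
        cnt (fun z : ((F × F) × F) × F => f1 * (col z).1 + f2 * (col z).2 = r) := by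
      refine cnt_congr fun z => ?_
      simp
    rw [e2]
    obtain ⟨h2, h3⟩ := cnt_colline f1 f2 r hf
    constructor
    · calc _ ≤ Fintype.card F * (Fintype.card F ^ 3 + 2 * Fintype.card F ^ 2) := Nat.mul_le_mul_left _ h2
        _ = Fintype.card F ^ 4 + 2 * Fintype.card F ^ 3 := by ring
        _ ≤ _ := by omega
    · have h4 := Nat.mul_le_mul_left (Fintype.card F) h3
      have h5 : Fintype.card F * Fintype.card F ^ 3 = Fintype.card F ^ 4 := by ring
      have h6 : Fintype.card F * (cnt (fun z : ((F × F) × F) × F => f1 * (col z).1 + f2 * (col z).2 = r) +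
        2 * Fintype.card F ^ 2) = Fintype.card F * cnt (fun z : ((F × F) × F) × F =>
          f1 * (col z).1 + f2 * (col z).2 = r) + 2 * Fintype.card F ^ 3 := by ring
      rw [h5, h6] at h4
      omega

end Pool.Agent.Q20.SL
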