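import Pool.Agent.Q20.SL.Main

set_option autoImplicit false

/-! # Linear forms on `SL_2(ℤ)`: the final statement (helper20) -/

namespace Pool.Agent.Q20.SL

open Finset Filter Matrix
open Pool.Agent.W147.PS (ff ff_compare ev_pow)

/-- an upper bound for the record scale -/
lemma ff_le (C a : ℝ) (hC : 0 ≤ C) (ha : 0 < a) : ∀ᶠ x : ℝ in atTop, C * ff x ≤ x ^ a := by
  have t1 : Tendsto Real.log atTop atTop := Real.tendsto_log_atTop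
  have t2 : Tendsto (fun M : ℝ => Real.log (Real.log M)) atTop atTop := t1.comp t1
  have t3 : Tendsto (fun M : ℝ => Real.log (Real.log (Real.log M))) atTop atTop := t1.comp t2
  have h1 : ∀ᶠ x : ℝ in atTop, ‖Real.log x ^ (3 : ℝ)‖ ≤ 1 / (C + 1) * ‖x ^ a‖ :=
    (isLittleO_log_rpow_rpow_atTop 3 ha).def (by positivity)
  filter_upwards [h1, t1.eventually_ge_atTop 1, t2.eventually_ge_atTop 1, t3.eventually_ge_atTop 1,
    eventually_ge_atTop 1] with x h1 l1 l2 l3 hx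
  have hxa : 0 < x ^ a := Real.rpow_pos_of_pos (by linarith) a
  have e3 : Real.log x ^ (3 : ℝ) = Real.log x ^ 3 := by norm_cast
  rw [e3, Real.norm_of_nonneg (by positivity), Real.norm_of_nonneg hxa.le] at h1
  have l4 : Real.log (Real.log (Real.log (Real.log x))) ≤ Real.log (Real.log (Real.log x)) ^ 2 := by
    have := Real.log_le_sub_one_of_pos (show 0 < Real.log (Real.log (Real.log x)) by linarith)
    nlinarith
  have l21 : Real.log (Real.log x) ≤ Real.log x := by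
    have := Real.log_le_sub_one_of_pos (show 0 < Real.log x by linarith)
    linarith
  have h2 : ff x ≤ Real.log x ^ 3 := by
    unfold ff
    rw [div_le_iff₀ (by positivity)]
    have l40 : 0 ≤ Real.log (Real.log (Real.log (Real.log x))) := Real.log_nonneg l3
    calc Real.log x * Real.log (Real.log x) ^ 2 * Real.log (Real.log (Real.log (Real.log x))) ≤
        Real.log x * Real.log x ^ 2 * Real.log (Real.log (Real.log x)) ^ 2 := by gcongr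
      _ = _ := by ring
  calc C * ff x ≤ C * Real.log x ^ 3 := mul_le_mul_of_nonneg_left h2 hC
    _ ≤ (C + 1) * (1 / (C + 1) * x ^ a) := by
      apply mul_le_mul (by linarith) h1 (by positivity) (by linarith)
    _ = x ^ a := by field_simp

/-- **Linear forms on `SL_2(ℤ)`.** -/
theorem slmain {k : ℕ} (A : Fin k → Matrix (Fin 2) (Fin 2) ℤ) (hA : ∀ j, A j ≠ 0)
    (hind : ∀ i j, i ≠ j → ∀ m n : ℤ, m • A i = n • A j → m = 0 ∧ n = 0) :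
    ∃ κ : ℝ, 0 < κ ∧ ∃ Z₀ : ℝ, ∀ Z : ℝ, Z₀ ≤ Z → ∀ g h : Matrix (Fin 2) (Fin 2) ℤ,
      g.det = 1 → h.det = 1 → ∃ M : Matrix (Fin 2) (Fin 2) ℤ, M.det = 1 ∧
        (∀ i l, Real.sqrt Z ≤ (M i l : ℝ) ∧ (M i l : ℝ) ≤ Z) ∧
        ∀ j, (∀ q : ℕ, q.Prime → |(q : ℝ) - (A j * (g * M * h)).trace| ≤ κ * ff Z →
            (q : ℝ) ≤ Z ^ (1 / 10 : ℝ)) ∧
          (Real.sqrt Z ≤ ((A j * (g * M * h)).trace : ℝ) → ∀ q : ℕ, q.Prime →
            κ * ff Z < |(q : ℝ) - (A j * (g * M * h)).trace|) := by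
  obtain ⟨c, hc, Z₁, hcore⟩ := core A hA hind
  have ev1 := ff_compare (1 / 6) (by norm_num) (by norm_num)
  have ev2 := ff_le (c * (1 / 192)) (1 / 10) (by positivity) (by norm_num)
  have ev3 := ev_pow (1 / 6 : ℝ) (1 / 5) 100 (by norm_num)
  have ev4 := ev_pow (1 / 10 : ℝ) (1 / 2) 3 (by norm_num)
  have ev5 : ∀ᶠ Z : ℝ in atTop, Z₁ ≤ Z ^ (1 / 6 : ℝ) :=
    (tendsto_rpow_atTop (by norm_num)).eventually_ge_atTop Z₁
  have ev6 : ∀ᶠ Z : ℝ in atTop, 100 ≤ Z ^ (1 / 6 : ℝ) :=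
    (tendsto_rpow_atTop (by norm_num)).eventually_ge_atTop 100
  obtain ⟨Z₀, hZ₀⟩ := eventually_atTop.1 ((((ev1.and ev2).and (ev3.and ev4)).and (ev5.and ev6)).and
    (eventually_ge_atTop (64 : ℝ)))
  refine ⟨c * (1 / 192), by positivity, Z₀, fun Z hZ g h hg hh => ?_⟩
  obtain ⟨⟨⟨⟨⟨-, w1⟩, w2⟩, w3, w4⟩, w5, w6⟩, w7⟩ := hZ₀ Z hZ
  have hZ0 : 0 < Z := by linarith
  have hZ1 : 1 ≤ Z := by linarith
  -- the side of the box
  obtain ⟨Y, hY⟩ : ∃ Y : ℕ, Y = ⌊(Z / 64) ^ (1 / 5 : ℝ)⌋₊ := ⟨_, rfl⟩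
  have hZ5 : (Z / 64) ^ (1 / 5 : ℝ) ≥ Z ^ (1 / 5 : ℝ) / 64 := by
    rw [Real.div_rpow hZ0.le (by norm_num)]
    apply div_le_div_of_nonneg_left (by positivity) (by positivity)
    calc (64 : ℝ) ^ (1 / 5 : ℝ) ≤ (64 : ℝ) ^ (1 : ℝ) :=
          Real.rpow_le_rpow_of_exponent_le (by norm_num) (by norm_num)
      _ = 64 := Real.rpow_one _
  have hYl : Z ^ (1 / 6 : ℝ) ≤ (Y : ℝ) := by
    have h1 := Nat.lt_floor_add_one ((Z / 64) ^ (1 / 5 : ℝ))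
    rw [← hY] at h1
    linarith
  have hYu : 64 * (Y : ℝ) ^ 5 ≤ Z := by
    have h1 : (Y : ℝ) ≤ (Z / 64) ^ (1 / 5 : ℝ) := by rw [hY]; exact Nat.floor_le (by positivity)
    have h2 : (Y : ℝ) ^ 5 ≤ ((Z / 64) ^ (1 / 5 : ℝ)) ^ 5 := pow_le_pow_left₀ (Nat.cast_nonneg _) h1 5
    rw [← Real.rpow_natCast ((Z / 64) ^ (1 / 5 : ℝ)), ← Real.rpow_mul (by positivity)] at h2
    norm_num at h2
    linarith
  obtain ⟨x, hx, hxc⟩ := hcore Y (w5.trans hYl) g h hg hh (fun _ => (Y : ℤ))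
  have hY100 : (100 : ℤ) ≤ Y := by
    have : (100 : ℝ) ≤ Y := w6.trans hYl
    exact_mod_cast this
  -- the entries
  obtain ⟨y, hy⟩ : ∃ y : ℤ, y = 2 * (Y : ℤ) := ⟨_, rfl⟩
  have hx' : ∀ i, (Y : ℤ) ≤ x i ∧ x i ≤ y := fun i => ⟨(hx i).1.le, by rw [hy]; linarith [(hx i).2]⟩
  obtain ⟨a0, b0⟩ := hx' 0
  obtain ⟨a1, b1⟩ := hx' 1
  obtain ⟨a2, b2⟩ := hx' 2
  obtain ⟨a3', b3⟩ := hx' 3
  obtain ⟨a4, b4⟩ := hx' 4
  have hY0 : (0 : ℤ) ≤ Y := by linarith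
  have hy0 : 0 ≤ y := by linarith
  have p0 : 0 ≤ x 0 := hY0.trans a0
  have p1 : 0 ≤ x 1 := hY0.trans a1
  have p2 : 0 ≤ x 2 := hY0.trans a2
  have p3 : 0 ≤ x 3 := hY0.trans a3'
  have p4 : 0 ≤ x 4 := hY0.trans a4
  obtain ⟨aa, haa⟩ : ∃ aa : ℤ, aa = 1 + x 1 * x 0 := ⟨_, rfl⟩
  obtain ⟨cc, hcc⟩ : ∃ cc : ℤ, cc = x 1 + x 2 * aa := ⟨_, rfl⟩
  obtain ⟨dd, hdd⟩ : ∃ dd : ℤ, dd = 1 + x 2 * x 0 := ⟨_, rfl⟩
  obtain ⟨bb, hbb⟩ : ∃ bb : ℤ, bb = x 0 + x 3 * dd := ⟨_, rfl⟩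
  obtain ⟨ab, hab⟩ : ∃ ab : ℤ, ab = aa + x 3 * cc := ⟨_, rfl⟩
  have e00 : mat x 0 0 = ab := by
    rw [hab, hcc, haa]; simp [mat, col, c3, a3, tup_apply]
  have e10 : mat x 1 0 = cc := by
    rw [hcc, haa]; simp [mat, col, c3, a3, tup_apply]
  have e01 : mat x 0 1 = bb + x 4 * ab := by
    rw [hab, hcc, haa, hbb, hdd]; simp [mat, col, colw, col', c3, a3, tup_apply]
  have e11 : mat x 1 1 = dd + x 4 * cc := by
    rw [hcc, haa, hdd]; simp [mat, col, colw, col', c3, a3, tup_apply]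
  -- lower bounds
  have la : (Y : ℤ) ^ 2 ≤ aa := by rw [haa]; nlinarith [mul_le_mul a1 a0 hY0 p1]
  have la0 : (0 : ℤ) ≤ aa := le_trans (by positivity) la
  have lc : (Y : ℤ) ^ 3 ≤ cc := by
    rw [hcc]
    have := mul_le_mul a2 la (by positivity) p2
    nlinarith
  have lc0 : (0 : ℤ) ≤ cc := le_trans (by positivity) lc
  have lab : (Y : ℤ) ^ 4 ≤ ab := by
    rw [hab]
    have := mul_le_mul a3' lc (by positivity) p3
    nlinarith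
  have lab0 : (0 : ℤ) ≤ ab := le_trans (by positivity) lab
  have ldd0 : (0 : ℤ) ≤ dd := by rw [hdd]; positivity
  have lbb0 : (0 : ℤ) ≤ bb := by rw [hbb]; positivity
  have Y34 : (Y : ℤ) ^ 3 ≤ (Y : ℤ) ^ 4 := pow_le_pow_right₀ (by linarith) (by norm_num)
  have Y35 : (Y : ℤ) ^ 3 ≤ (Y : ℤ) ^ 5 := pow_le_pow_right₀ (by linarith) (by norm_num)
  have lb : (Y : ℤ) ^ 3 ≤ bb + x 4 * ab := by
    have := mul_le_mul a4 lab (by positivity) p4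
    nlinarith
  have ld : (Y : ℤ) ^ 3 ≤ dd + x 4 * cc := by
    have := mul_le_mul a4 lc (by positivity) p4
    nlinarith
  -- upper bounds
  have hy200 : (200 : ℤ) ≤ y := by linarith
  have ua : aa ≤ 1 + y ^ 2 := by rw [haa]; nlinarith [mul_le_mul b1 b0 p0 hy0]
  have uc : cc ≤ y + y * (1 + y ^ 2) := by
    rw [hcc]
    have := mul_le_mul b2 ua la0 hy0
    linarith
  have ud : dd ≤ 1 + y ^ 2 := by rw [hdd]; nlinarith [mul_le_mul b2 b0 p0 hy0]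
  have ub : bb ≤ y + y * (1 + y ^ 2) := by
    rw [hbb]
    have := mul_le_mul b3 ud ldd0 hy0
    linarith
  have uab : ab ≤ 1 + y ^ 2 + y * (y + y * (1 + y ^ 2)) := by
    rw [hab]
    have := mul_le_mul b3 uc lc0 hy0
    linarith
  have ub' : bb + x 4 * ab ≤ y + y * (1 + y ^ 2) + y * (1 + y ^ 2 + y * (y + y * (1 + y ^ 2))) := by
    have := mul_le_mul b4 uab lab0 hy0
    linarith
  have ud' : dd + x 4 * cc ≤ 1 + y ^ 2 + y * (y + y * (1 + y ^ 2)) := by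
    have := mul_le_mul b4 uc lc0 hy0
    linarith
  have y1 : 200 * y ≤ y ^ 2 := by nlinarith
  have y2 : 200 * y ^ 2 ≤ y ^ 3 := by nlinarith [mul_nonneg hy0 hy0]
  have y3 : 200 * y ^ 3 ≤ y ^ 4 := by
    have : 0 ≤ y ^ 3 := by positivity
    nlinarith
  have y4 : 200 * y ^ 4 ≤ y ^ 5 := by
    have : 0 ≤ y ^ 4 := by positivity
    nlinarith
  have hyZ : 2 * (y : ℝ) ^ 5 ≤ Z := by
    rw [hy]
    push_cast
    nlinarith
  have up : ∀ n : ℤ, n ≤ 2 * y ^ 5 → (n : ℝ) ≤ Z := by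
    intro n hn
    have : (n : ℝ) ≤ 2 * (y : ℝ) ^ 5 := by exact_mod_cast hn
    linarith
  have hsq : Real.sqrt Z ≤ (Y : ℝ) ^ 3 := by
    have h1 : Z ^ (1 / 2 : ℝ) = (Z ^ (1 / 6 : ℝ)) ^ 3 := by
      rw [← Real.rpow_natCast, ← Real.rpow_mul hZ0.le]
      norm_num
    rw [Real.sqrt_eq_rpow, h1]
    exact pow_le_pow_left₀ (by positivity) hYl 3
  have lo : ∀ n : ℤ, (Y : ℤ) ^ 3 ≤ n → Real.sqrt Z ≤ (n : ℝ) := by
    intro n hn
    have : (Y : ℝ) ^ 3 ≤ (n : ℝ) := by exact_mod_cast hn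
    linarith
  have hffY : c * (1 / 192) * ff Z ≤ c * Pool.Agent.H256R2.SC.ff Y := by
    have hY2 : (Y : ℝ) ≤ Z ^ 2 := by
      have : (1 : ℝ) ≤ Y := by linarith
      have h1 : (Y : ℝ) ≤ (Y : ℝ) ^ 5 := le_self_pow₀ this (by norm_num)
      nlinarith
    have h1 := (w1 Y hYl hY2).1
    have e : Pool.Agent.H256R2.SC.ff Y = ff Y := rfl
    rw [e]
    nlinarith
  have hq : ∀ j, ∀ q : ℕ, q.Prime → |(q : ℝ) - (A j * (g * mat x * h)).trace| ≤ c * (1 / 192) * ff Z →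
      (q : ℝ) ≤ Z ^ (1 / 10 : ℝ) := by
    intro j q hq hqZ
    obtain ⟨p, hp, hp1, hp2⟩ := hxc j q (by
      push_cast
      exact hqZ.trans hffY)
    have hpq : p = q := (Nat.prime_dvd_prime_iff_eq hp hq).1 (by exact_mod_cast hp2)
    rw [← hpq]
    refine hp1.trans (Real.rpow_le_rpow (Nat.cast_nonneg _) ?_ (by norm_num))
    have : (1 : ℝ) ≤ Y := by linarith
    have h1 : (Y : ℝ) ≤ (Y : ℝ) ^ 5 := le_self_pow₀ this (by norm_num)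
    nlinarith
  refine ⟨mat x, det_mat x, ?_, fun j => ⟨hq j, ?_⟩⟩
  · intro i l
    fin_cases i <;> fin_cases l
    · show Real.sqrt Z ≤ ((mat x 0 0 : ℤ) : ℝ) ∧ ((mat x 0 0 : ℤ) : ℝ) ≤ Z
      rw [e00]
      exact ⟨lo _ (Y34.trans lab), up _ (by nlinarith)⟩
    · show Real.sqrt Z ≤ ((mat x 0 1 : ℤ) : ℝ) ∧ ((mat x 0 1 : ℤ) : ℝ) ≤ Z
      rw [e01]
      exact ⟨lo _ lb, up _ (by nlinarith)⟩
    · show Real.sqrt Z ≤ ((mat x 1 0 : ℤ) : ℝ) ∧ ((mat x 1 0 : ℤ) : ℝ) ≤ Z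
      rw [e10]
      exact ⟨lo _ lc, up _ (by nlinarith)⟩
    · show Real.sqrt Z ≤ ((mat x 1 1 : ℤ) : ℝ) ∧ ((mat x 1 1 : ℤ) : ℝ) ≤ Z
      rw [e11]
      exact ⟨lo _ ld, up _ (by nlinarith)⟩
  · intro hs q hq'
    by_contra hcon
    push Not at hcon
    have h1 := hq j q hq' hcon
    have h2 := (abs_le.1 hcon).1
    rw [Real.sqrt_eq_rpow] at hs
    have h3 : 0 < Z ^ (1 / 10 : ℝ) := Real.rpow_pos_of_pos hZ0 _
    linarith

end Pool.Agent.Q20.SL
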