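import Pool.Agent.Q20.SL.Uni
import Pool.Agent.Q20.SL.Count
import Pool.Agent.W147.PS.Scale

set_option autoImplicit false

/-! # Linear forms on `SL_2(ℤ)` (helper20) -/

namespace Pool.Agent.Q20.SL

open Finset Filter Matrix
open Pool.Agent.H256R2.SC (ff)
open Pool.Agent.Y837.SV (red)

open scoped Classical

/-- five variables as a nested tuple -/
def tup {R : Type} : (Fin 5 → R) ≃ ((((R × R) × R) × R) × R) where
  toFun x := ((((x 0, x 1), x 2), x 3), x 4)
  invFun t := ![t.1.1.1.1, t.1.1.1.2, t.1.1.2, t.1.2, t.2]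
  left_inv x := by
    funext i
    fin_cases i <;> rfl
  right_inv t := rfl

lemma tup_apply {R : Type} (x : Fin 5 → R) : tup x = ((((x 0, x 1), x 2), x 3), x 4) := rfl

/-- the matrix `U(x₃) L(x₂) U(x₀) L(x₁) U(x₄)` -/
def mat {R : Type} [CommRing R] (x : Fin 5 → R) : Matrix (Fin 2) (Fin 2) R :=
  !![(col (tup x).1).1, (colw (tup x)).1; (col (tup x).1).2, (colw (tup x)).2]

lemma det_mat {R : Type} [CommRing R] (x : Fin 5 → R) : (mat x).det = 1 := by
  rw [mat, det_fin_two_of, ← det_colw (tup x)]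
  ring

lemma trace_mat {R : Type} [CommRing R] (A : Matrix (Fin 2) (Fin 2) R) (x : Fin 5 → R) :
    (A * mat x).trace = A 0 0 * (col (tup x).1).1 + A 0 1 * (col (tup x).1).2 +
      (A 1 0 * (colw (tup x)).1 + A 1 1 * (colw (tup x)).2) := by
  rw [trace_fin_two, mul_apply, mul_apply, Fin.sum_univ_two, Fin.sum_univ_two]
  simp [mat]

lemma map_mat {R S : Type} [CommRing R] [CommRing S] (φ : R →+* S) (x : Fin 5 → R) :
    (mat x).map φ = mat (fun i => φ (x i)) := by
  ext i j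
  fin_cases i <;> fin_cases j <;>
    simp [mat, col, colw, col', c3, a3, tup_apply]

lemma surj_mat {F : Type} [Field F] (m : Matrix (Fin 2) (Fin 2) F) (hm : m.det = 1) :
    ∃ x : Fin 5 → F, mat x = m := by
  rw [det_fin_two] at hm
  obtain ⟨a, ha⟩ : ∃ a, a = m 0 0 := ⟨_, rfl⟩
  obtain ⟨b, hb⟩ : ∃ b, b = m 0 1 := ⟨_, rfl⟩
  obtain ⟨c, hc⟩ : ∃ c, c = m 1 0 := ⟨_, rfl⟩
  obtain ⟨d, hd⟩ : ∃ d, d = m 1 1 := ⟨_, rfl⟩
  rw [← ha, ← hb, ← hc, ← hd] at hm
  have hm' : m = !![a, b; c, d] := by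
    rw [ha, hb, hc, hd]
    exact (eta_fin_two m)
  rw [hm']
  by_cases h : c = 0
  · subst h
    have ha0 : a ≠ 0 := by
      intro h
      rw [h] at hm
      simp at hm
    have hd0 : d = 1 / a := by
      rw [eq_div_iff ha0]
      linear_combination hm
    refine ⟨![a - 1, 1, -1 / a, 0, (b - (a - 1)) / a], ?_⟩
    ext i j
    fin_cases i <;> fin_cases j
    · simp [mat, col, colw, col', c3, a3, tup_apply]
    · simp [mat, col, colw, col', c3, a3, tup_apply]
      field_simp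
      ring
    · simp [mat, col, colw, col', c3, a3, tup_apply]
      field_simp
      ring
    · simp [mat, col, colw, col', c3, a3, tup_apply]
      rw [hd0]
      field_simp
      ring
  · refine ⟨![0, c, 0, (a - 1) / c, (d - 1) / c], ?_⟩
    have hb' : b = (a * d - 1) / c := by
      rw [eq_div_iff h]
      linear_combination -hm
    ext i j
    fin_cases i <;> fin_cases j
    · simp [mat, col, colw, col', c3, a3, tup_apply]
      field_simp
      ring
    · simp [mat, col, colw, col', c3, a3, tup_apply]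
      rw [hb']
      field_simp
      ring
    · simp [mat, col, colw, col', c3, a3, tup_apply]
    · simp [mat, col, colw, col', c3, a3, tup_apply]
      field_simp
      ring

lemma natCard_tup {F : Type} [Fintype F] (P : ((((F × F) × F) × F) × F) → Prop) :
    Nat.card {x : Fin 5 → F // P (tup x)} = cnt P := by
  rw [Nat.card_congr (tup.subtypeEquiv (p := fun x => P (tup x)) (q := P) fun x => Iff.rfl),
    Nat.card_eq_fintype_card, Fintype.card_subtype]
  rfl

section loc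

variable {p : ℕ} [hp : Fact p.Prime]

/-- one form: the number of the points with a given value -/
lemma locU (A : Matrix (Fin 2) (Fin 2) (ZMod p)) (hA : A ≠ 0) (r : ZMod p) :
    |(p : ℝ) * (Nat.card {x : Fin 5 → ZMod p // (A * mat x).trace = r} : ℝ) - (p : ℝ) ^ 5| ≤
      8 * (p : ℝ) ^ 4 := by
  have h0 : A 0 0 ≠ 0 ∨ A 0 1 ≠ 0 ∨ A 1 0 ≠ 0 ∨ A 1 1 ≠ 0 := by
    by_contra hcon
    push Not at hcon
    apply hA
    ext i j
    fin_cases i <;> fin_cases j
    · exact hcon.1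
    · exact hcon.2.1
    · exact hcon.2.2.1
    · exact hcon.2.2.2
  obtain ⟨h1, h2⟩ := cnt_one_form (A 0 0) (A 0 1) (A 1 0) (A 1 1) r h0
  rw [ZMod.card] at h1 h2
  have h3 : Nat.card {x : Fin 5 → ZMod p // (A * mat x).trace = r} =
      cnt (fun x : ((((ZMod p × ZMod p) × ZMod p) × ZMod p) × ZMod p) =>
        A 0 0 * (col x.1).1 + A 0 1 * (col x.1).2 + (A 1 0 * (colw x).1 + A 1 1 * (colw x).2) = r) := by
    rw [← natCard_tup]
    simp only [trace_mat]
  rw [h3]
  obtain ⟨N, hN⟩ : ∃ N : ℕ, N = cnt (fun x : ((((ZMod p × ZMod p) × ZMod p) × ZMod p) × ZMod p) =>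
        A 0 0 * (col x.1).1 + A 0 1 * (col x.1).2 + (A 1 0 * (colw x).1 + A 1 1 * (colw x).2) = r) := ⟨_, rfl⟩
  rw [← hN] at h1 h2 ⊢
  have h4 : (N : ℝ) ≤ (p : ℝ) ^ 4 + 8 * (p : ℝ) ^ 3 := by exact_mod_cast h1
  have h5 : (p : ℝ) ^ 4 ≤ (N : ℝ) + 8 * (p : ℝ) ^ 3 := by exact_mod_cast h2
  have hp0 : (0 : ℝ) ≤ p := Nat.cast_nonneg p
  rw [abs_le]
  constructor
  · nlinarith [mul_le_mul_of_nonneg_left h5 hp0]
  · nlinarith [mul_le_mul_of_nonneg_left h4 hp0]

/-- two forms: an upper bound -/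
lemma locP (A B : Matrix (Fin 2) (Fin 2) (ZMod p))
    (hAB : ∀ a b : ZMod p, a • A = b • B → a = 0 ∧ b = 0) (r s : ZMod p) :
    (p : ℝ) ^ 2 * (Nat.card {x : Fin 5 → ZMod p // (A * mat x).trace = r ∧ (B * mat x).trace = s} : ℝ) ≤
      8 * (p : ℝ) ^ 5 := by
  have h1 := cnt_two (A 0 0) (A 0 1) (A 1 0) (A 1 1) r (B 0 0) (B 0 1) (B 1 0) (B 1 1) s (by
    intro a b h1 h2 h3 h4
    apply hAB
    ext i j
    fin_cases i <;> fin_cases j
    · exact h1
    · exact h2
    · exact h3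
    · exact h4)
  rw [ZMod.card] at h1
  have h3 : Nat.card {x : Fin 5 → ZMod p // (A * mat x).trace = r ∧ (B * mat x).trace = s} =
      cnt (fun x : ((((ZMod p × ZMod p) × ZMod p) × ZMod p) × ZMod p) =>
        A 0 0 * (col x.1).1 + A 0 1 * (col x.1).2 + (A 1 0 * (colw x).1 + A 1 1 * (colw x).2) = r ∧
        B 0 0 * (col x.1).1 + B 0 1 * (col x.1).2 + (B 1 0 * (colw x).1 + B 1 1 * (colw x).2) = s) := by
    rw [← natCard_tup]
    simp only [trace_mat]
  rw [h3]
  obtain ⟨N, hN⟩ : ∃ N : ℕ, N = cnt (fun x : ((((ZMod p × ZMod p) × ZMod p) × ZMod p) × ZMod p) =>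
        A 0 0 * (col x.1).1 + A 0 1 * (col x.1).2 + (A 1 0 * (colw x).1 + A 1 1 * (colw x).2) = r ∧
        B 0 0 * (col x.1).1 + B 0 1 * (col x.1).2 + (B 1 0 * (colw x).1 + B 1 1 * (colw x).2) = s) := ⟨_, rfl⟩
  rw [← hN] at h1 ⊢
  have h4 : (N : ℝ) ≤ 8 * (p : ℝ) ^ 3 := by exact_mod_cast h1
  calc (p : ℝ) ^ 2 * (N : ℝ) ≤ (p : ℝ) ^ 2 * (8 * (p : ℝ) ^ 3) := mul_le_mul_of_nonneg_left h4 (by positivity)
    _ = 8 * (p : ℝ) ^ 5 := by ring

end loc

/-- independence modulo large primes -/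
lemma ind_mod {k : ℕ} (A : Fin k → Matrix (Fin 2) (Fin 2) ℤ) (hA : ∀ j, A j ≠ 0)
    (hind : ∀ i j, i ≠ j → ∀ m n : ℤ, m • A i = n • A j → m = 0 ∧ n = 0) :
    ∃ B : ℕ, ∀ p : ℕ, p.Prime → B < p → (∀ j, (A j).map (Int.castRingHom (ZMod p)) ≠ 0) ∧
      ∀ i j, i ≠ j → ∀ a b : ZMod p, a • (A i).map (Int.castRingHom (ZMod p)) =
        b • (A j).map (Int.castRingHom (ZMod p)) → a = 0 ∧ b = 0 := by
  have small : ∀ (n : ℤ), n ≠ 0 → ∀ p : ℕ, n.natAbs < p → (n : ZMod p) ≠ 0 := by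
    intro n hn p hp h
    rw [ZMod.intCast_zmod_eq_zero_iff_dvd] at h
    have := Int.natAbs_dvd_natAbs.2 h
    rw [Int.natAbs_natCast] at this
    have := Nat.le_of_dvd (Int.natAbs_pos.2 hn) this
    omega
  have h1 : ∀ j, ∃ B : ℕ, ∀ p : ℕ, p.Prime → B < p → (A j).map (Int.castRingHom (ZMod p)) ≠ 0 := by
    intro j
    have : ∃ i l, A j i l ≠ 0 := by
      by_contra hcon
      push Not at hcon
      exact hA j (by ext i l; exact hcon i l)
    obtain ⟨i, l, hil⟩ := this
    refine ⟨(A j i l).natAbs, fun p _ hp2 h => ?_⟩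
    apply small _ hil p hp2
    have := congrFun (congrFun h i) l
    simpa using this
  have h2 : ∀ i j, ∃ B : ℕ, ∀ p : ℕ, p.Prime → B < p → i ≠ j → ∀ a b : ZMod p,
      a • (A i).map (Int.castRingHom (ZMod p)) = b • (A j).map (Int.castRingHom (ZMod p)) →
      a = 0 ∧ b = 0 := by
    intro i j
    by_cases hij : i = j
    · exact ⟨0, fun p _ _ h => absurd hij h⟩
    have : ∃ s t u v, A i s t * A j u v - A i u v * A j s t ≠ 0 := by
      by_contra hcon
      push Not at hcon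
      have : ∃ s t, A i s t ≠ 0 := by
        by_contra hcon
        push Not at hcon
        exact hA i (by ext i l; exact hcon i l)
      obtain ⟨s, t, hst⟩ := this
      apply hst
      refine (hind i j hij (A j s t) (A i s t) ?_).2
      ext u v
      have := hcon s t u v
      simp only [Matrix.smul_apply, smul_eq_mul]
      linarith
    obtain ⟨s, t, u, v, huv⟩ := this
    refine ⟨(A i s t * A j u v - A i u v * A j s t).natAbs, fun p hp hp2 _ a b hab => ?_⟩
    have : Fact p.Prime := ⟨hp⟩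
    have h3 := small _ huv p hp2
    have h4 : a * (A i s t : ZMod p) = b * (A j s t : ZMod p) := by
      have := congrFun (congrFun hab s) t
      simpa using this
    have h5 : a * (A i u v : ZMod p) = b * (A j u v : ZMod p) := by
      have := congrFun (congrFun hab u) v
      simpa using this
    push_cast at h3
    constructor
    · have : a * ((A i s t : ZMod p) * (A j u v : ZMod p) - (A i u v : ZMod p) * (A j s t : ZMod p)) = 0 := by
        linear_combination (A j u v : ZMod p) * h4 - (A j s t : ZMod p) * h5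
      rcases mul_eq_zero.1 this with h | h
      · exact h
      · exact absurd h h3
    · have : b * ((A i s t : ZMod p) * (A j u v : ZMod p) - (A i u v : ZMod p) * (A j s t : ZMod p)) = 0 := by
        linear_combination (A i u v : ZMod p) * h4 - (A i s t : ZMod p) * h5
      rcases mul_eq_zero.1 this with h | h
      · exact h
      · exact absurd h h3
  choose B1 hB1 using h1
  choose B2 hB2 using h2
  refine ⟨(∑ j, B1 j) + ∑ i, ∑ j, B2 i j, fun p hp hp2 => ⟨fun j => ?_, fun i j hij => ?_⟩⟩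
  · refine hB1 j p hp (lt_of_le_of_lt ?_ hp2)
    have := Finset.single_le_sum (f := B1) (fun _ _ => Nat.zero_le _) (mem_univ j)
    omega
  · refine hB2 i j p hp (lt_of_le_of_lt ?_ hp2) hij
    have h3 := Finset.single_le_sum (f := fun j => B2 i j) (fun _ _ => Nat.zero_le _) (mem_univ j)
    have h4 := Finset.single_le_sum (f := fun i => ∑ j, B2 i j) (fun _ _ => Nat.zero_le _) (mem_univ i)
    omega

lemma map_smul' {R S : Type} [CommRing R] [CommRing S] (f : R →+* S) (a : S)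
    (A B C : Matrix (Fin 2) (Fin 2) R) :
    B.map f * (a • A.map f) * C.map f = a • (B * A * C).map f := by
  rw [Matrix.map_mul, Matrix.map_mul, Matrix.mul_smul, Matrix.smul_mul]

lemma adj_mul {g : Matrix (Fin 2) (Fin 2) ℤ} (hg : g.det = 1) : g.adjugate * g = 1 := by
  rw [Matrix.adjugate_mul, hg, one_smul]

lemma mul_adj {g : Matrix (Fin 2) (Fin 2) ℤ} (hg : g.det = 1) : g * g.adjugate = 1 := by
  rw [Matrix.mul_adjugate, hg, one_smul]

lemma sl_cancel {g h : Matrix (Fin 2) (Fin 2) ℤ} (hg : g.det = 1) (hh : h.det = 1)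
    (A : Matrix (Fin 2) (Fin 2) ℤ) : h.adjugate * (h * A * g) * g.adjugate = A := by
  calc h.adjugate * (h * A * g) * g.adjugate = (h.adjugate * h) * A * (g * g.adjugate) := by
        simp only [Matrix.mul_assoc]
    _ = A := by rw [adj_mul hh, mul_adj hg, Matrix.one_mul, Matrix.mul_one]

lemma ex_u {k p : ℕ} [hp : Fact p.Prime] (hk : 9 * k < p) (H : Fin k → Matrix (Fin 2) (Fin 2) (ZMod p))
    (hH : ∀ j, H j ≠ 0) (t : Fin k → ZMod p) :
    ∃ y : Fin 5 → ZMod p, ∀ j, (H j * mat y).trace ≠ t j := by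
  by_contra hcon
  push Not at hcon
  have hp0 : (0 : ℝ) < p := by exact_mod_cast hp.out.pos
  have h1 : ∀ j, ((univ.filter (fun y : Fin 5 → ZMod p => (H j * mat y).trace = t j)).card : ℝ) ≤
      9 * (p : ℝ) ^ 4 := by
    intro j
    have h1 := (abs_le.1 (locU (H j) (hH j) (t j))).2
    rw [Nat.card_eq_fintype_card, Fintype.card_subtype] at h1
    have hp1 : (1 : ℝ) ≤ p := by exact_mod_cast hp.out.one_lt.le
    obtain ⟨N, hN⟩ : ∃ N : ℕ, N = (univ.filter (fun y : Fin 5 → ZMod p => (H j * mat y).trace = t j)).card :=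
      ⟨_, rfl⟩
    rw [← hN] at h1 ⊢
    have h2 : (p : ℝ) * N ≤ (p : ℝ) * (9 * (p : ℝ) ^ 4) := by
      have h3 : (p : ℝ) ^ 4 ≤ (p : ℝ) ^ 5 := pow_le_pow_right₀ hp1 (by norm_num)
      nlinarith
    exact le_of_mul_le_mul_left h2 hp0
  have h2 : (univ : Finset (Fin 5 → ZMod p)) ⊆ univ.biUnion
      (fun j => univ.filter (fun y : Fin 5 → ZMod p => (H j * mat y).trace = t j)) := by
    intro y _
    obtain ⟨j, hj⟩ := hcon y
    rw [mem_biUnion]
    exact ⟨j, mem_univ _, mem_filter.2 ⟨mem_univ _, hj⟩⟩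
  have h3 : (((univ : Finset (Fin 5 → ZMod p)).card : ℕ) : ℝ) ≤
      ∑ j : Fin k, ((univ.filter (fun y : Fin 5 → ZMod p => (H j * mat y).trace = t j)).card : ℝ) := by
    exact_mod_cast (card_le_card h2).trans card_biUnion_le
  have h4 : (((univ : Finset (Fin 5 → ZMod p)).card : ℕ) : ℝ) = (p : ℝ) ^ 5 := by
    rw [card_univ, Fintype.card_fun, ZMod.card, Fintype.card_fin]
    push_cast
    rfl
  have h5 : (p : ℝ) ^ 5 ≤ k * (9 * (p : ℝ) ^ 4) := by
    rw [← h4]
    refine h3.trans ((Finset.sum_le_sum fun j _ => h1 j).trans ?_)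
    rw [sum_const, card_univ, Fintype.card_fin, nsmul_eq_mul]
  have h6 : (9 : ℝ) * k < p := by exact_mod_cast hk
  have h7 : (0 : ℝ) < (p : ℝ) ^ 4 := by positivity
  nlinarith

/-- **the values of linear forms on `SL_2(ℤ)`, integral boxes of parameters** -/
theorem core {k : ℕ} (A : Fin k → Matrix (Fin 2) (Fin 2) ℤ) (hA : ∀ j, A j ≠ 0)
    (hind : ∀ i j, i ≠ j → ∀ m n : ℤ, m • A i = n • A j → m = 0 ∧ n = 0) :
    ∃ c : ℝ, 0 < c ∧ ∃ Z₀ : ℝ, ∀ Z : ℕ, Z₀ ≤ Z → ∀ g h : Matrix (Fin 2) (Fin 2) ℤ,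
      g.det = 1 → h.det = 1 → ∀ M : Fin 5 → ℤ, ∃ x : Fin 5 → ℤ, (∀ i, M i < x i ∧ x i ≤ M i + Z) ∧
        ∀ j, ∀ n : ℤ, |(n : ℝ) - (A j * (g * mat x * h)).trace| ≤ c * ff Z →
          ∃ p : ℕ, p.Prime ∧ (p : ℝ) ≤ (Z : ℝ) ^ (1 / 10 : ℝ) ∧ (p : ℤ) ∣ n := by
  obtain ⟨B, hB⟩ := ind_mod A hA hind
  obtain ⟨c, hc, Z₀, hmain⟩ := uni (Fin k) 5 (max B (9 * k)) 8 (1 / 2) (∑ j, |((A j).trace : ℝ)|)
    (by norm_num) (by norm_num) le_rfl
  refine ⟨c, hc, Z₀, fun Z hZ g h hg hh M => ?_⟩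
  obtain ⟨H, hH⟩ : ∃ H : Fin k → Matrix (Fin 2) (Fin 2) ℤ, H = fun j => h * A j * g := ⟨_, rfl⟩
  have htr : ∀ j (X : Matrix (Fin 2) (Fin 2) ℤ), (A j * (g * X * h)).trace = (H j * X).trace := by
    intro j X
    rw [hH, ← Matrix.mul_assoc, ← Matrix.mul_assoc, Matrix.trace_mul_comm]
    simp only [Matrix.mul_assoc]
  have hHA : ∀ j, h.adjugate * H j * g.adjugate = A j := by
    intro j
    rw [hH]
    exact sl_cancel hg hh (A j)
  have hH0 : ∀ p : ℕ, p.Prime → max B (9 * k) < p → ∀ j, (H j).map (Int.castRingHom (ZMod p)) ≠ 0 := by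
    intro p hp hp2 j h0
    apply (hB p hp ((le_max_left _ _).trans_lt hp2)).1 j
    rw [← hHA j, Matrix.map_mul, Matrix.map_mul, h0, Matrix.mul_zero, Matrix.zero_mul]
  have hHind : ∀ p : ℕ, p.Prime → max B (9 * k) < p → ∀ i j, i ≠ j → ∀ a b : ZMod p,
      a • (H i).map (Int.castRingHom (ZMod p)) = b • (H j).map (Int.castRingHom (ZMod p)) →
        a = 0 ∧ b = 0 := by
    intro p hp hp2 i j hij a b hab
    apply (hB p hp ((le_max_left _ _).trans_lt hp2)).2 i j hij a b
    have h1 := congrArg (fun X => h.adjugate.map (Int.castRingHom (ZMod p)) * X *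
      g.adjugate.map (Int.castRingHom (ZMod p))) hab
    rw [map_smul', map_smul', hHA, hHA] at h1
    exact h1
  -- the values modulo `p`
  have hcast : ∀ (p : ℕ) (j : Fin k) (X : Matrix (Fin 2) (Fin 2) ℤ),
      (((H j * X).trace : ℤ) : ZMod p) = ((H j).map (Int.castRingHom (ZMod p)) *
        X.map (Int.castRingHom (ZMod p))).trace := by
    intro p j X
    rw [← Matrix.map_mul]
    simp [Matrix.trace, Matrix.diag]
  have hv : ∀ p : ℕ, ∃ v : Fin 5 → ℤ, p.Prime → ∀ j, (p : ℤ) ∣ (H j * mat v).trace - (A j).trace := by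
    intro p
    by_cases hp : p.Prime
    · have hF : Fact p.Prime := ⟨hp⟩
      obtain ⟨y, hy⟩ := surj_mat (F := ZMod p) ((g.adjugate * h.adjugate).map
        (Int.castRingHom (ZMod p))) (by
          have h1 := RingHom.map_det (Int.castRingHom (ZMod p)) (g.adjugate * h.adjugate)
          rw [Matrix.det_mul, Matrix.det_adjugate, Matrix.det_adjugate, hg, hh, one_pow, one_mul,
            map_one] at h1
          rw [h1]
          rfl)
      choose x hx using fun i => ZMod.intCast_surjective (y i)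
      refine ⟨x, fun _ j => ?_⟩
      rw [← ZMod.intCast_zmod_eq_zero_iff_dvd]
      push_cast
      have h2 : (mat x).map (Int.castRingHom (ZMod p)) =
          (g.adjugate * h.adjugate).map (Int.castRingHom (ZMod p)) := by
        rw [map_mat, ← hy]
        congr 1
        funext i
        exact hx i
      rw [hcast, h2, ← hcast, ← htr]
      have h3 : g * (g.adjugate * h.adjugate) * h = 1 := by
        rw [← Matrix.mul_assoc, mul_adj hg, Matrix.one_mul, adj_mul hh]
      rw [h3, Matrix.mul_one, sub_self]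
    · exact ⟨0, fun h => absurd h hp⟩
  choose v hv using hv
  have hu : ∀ p : ℕ, ∃ u : Fin 5 → ℤ, p.Prime → max B (9 * k) < p → ∀ j,
      ¬ (p : ℤ) ∣ (H j * mat u).trace - (A j).trace := by
    intro p
    by_cases hp : p.Prime
    · by_cases hp2 : max B (9 * k) < p
      · have hF : Fact p.Prime := ⟨hp⟩
        obtain ⟨y, hy⟩ := ex_u (k := k) (p := p) ((le_max_right _ _).trans_lt hp2)
          (fun j => (H j).map (Int.castRingHom (ZMod p))) (hH0 p hp hp2) (fun j => ((A j).trace : ZMod p))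
        choose x hx using fun i => ZMod.intCast_surjective (y i)
        refine ⟨x, fun _ _ j hj => hy j ?_⟩
        rw [← ZMod.intCast_zmod_eq_zero_iff_dvd] at hj
        push_cast at hj
        rw [hcast, map_mat] at hj
        have h2 : (fun i => (Int.castRingHom (ZMod p)) (x i)) = y := funext hx
        rw [h2] at hj
        exact sub_eq_zero.1 hj
      · exact ⟨0, fun _ h => absurd h hp2⟩
    · exact ⟨0, fun h => absurd h hp⟩
  choose u hu using hu
  obtain ⟨x, hx1, hx2⟩ := hmain Z hZ (fun j p y => ((H j).map (Int.castRingHom (ZMod p)) * mat y).trace)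
    (fun j x => (H j * mat x).trace) (by
      intro j p x
      rw [hcast, map_mat]
      rfl) (fun j => (A j).trace) (by
      intro j
      exact Finset.single_le_sum (f := fun j => |((A j).trace : ℝ)|) (fun _ _ => abs_nonneg _) (mem_univ j))
    v u (fun p hp _ j => hv p hp j) (fun p hp hp2 j => hu p hp hp2 j)
    (by
      intro p hp hp2 j r
      have hF : Fact p.Prime := ⟨hp⟩
      refine (locU _ (hH0 p hp hp2 j) r).trans ?_
      have hp0 : (0 : ℝ) < p := by exact_mod_cast hp.pos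
      have hp1 : (1 : ℝ) ≤ p := by exact_mod_cast hp.one_lt.le
      have h1 : (p : ℝ) ^ (-1 : ℝ) ≤ (p : ℝ) ^ (-(1 / 2) : ℝ) :=
        Real.rpow_le_rpow_of_exponent_le hp1 (by norm_num)
      rw [Real.rpow_neg_one] at h1
      calc 8 * (p : ℝ) ^ 4 = 8 * (p : ℝ) ^ 5 * (p : ℝ)⁻¹ := by field_simp
        _ ≤ 8 * (p : ℝ) ^ 5 * (p : ℝ) ^ (-(1 / 2) : ℝ) := mul_le_mul_of_nonneg_left h1 (by positivity))
    (by
      intro p hp hp2 i j hij r s
      have hF : Fact p.Prime := ⟨hp⟩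
      exact locP _ _ (hHind p hp hp2 i j hij) r s) M
  refine ⟨x, hx1, fun j n hn => hx2 j n ?_⟩
  rw [htr] at hn
  exact hn

end Pool.Agent.Q20.SL
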